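import Mathlib

/-!
# Interpolation with prescribed norms
-/

set_option autoImplicit false

open NumberField IsDedekindDomain Polynomial

namespace Pool.Agent.Helper71.NA

variable {Q K : Type} [Field Q] [NumberField Q] [Field K] [NumberField K] [Algebra Q K]

/-- the characteristic polynomial of `b` at `c` is `(-1)^m N(b - c)` -/
theorem eval_charpoly_lmul {m : ℕ} (hm : Module.finrank Q K = m) (b : K) (c : Q) :
    (Algebra.lmul Q K b).charpoly.eval c =
      (-1) ^ m * Algebra.norm Q (b - algebraMap Q K c) := by
  rw [LinearMap.eval_charpoly, Algebra.norm_apply, ← hm, ← LinearMap.det_smul]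
  congr 1
  ext x
  simp [Algebra.smul_def]

/-- package I: interpolation -/
theorem interp {m : ℕ} (hm : Module.finrank Q K = m) {c : Fin m → Q} (hc : Function.Injective c)
    (n : Fin m → Q) :
    ∃ (P : Q[X]) (l : Fin m → Q[X]), P.Monic ∧ P.natDegree = m ∧
      ∀ b : K, aeval b P =
        ∑ i, algebraMap Q K (n i - Algebra.norm Q (b - algebraMap Q K (c i))) * aeval b (l i) := by
  classical
  have hinj : Set.InjOn c (Finset.univ : Finset (Fin m)) := hc.injOn
  set I : Q[X] := Lagrange.interpolate Finset.univ c (fun i => (-1) ^ m * n i) with hI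
  have hIdeg : I.degree < (Finset.univ : Finset (Fin m)).card :=
    Lagrange.degree_interpolate_lt _ hinj
  have hNdeg : (Lagrange.nodal (Finset.univ : Finset (Fin m)) c).degree =
      (Finset.univ : Finset (Fin m)).card := Lagrange.degree_nodal
  have hNmon : (Lagrange.nodal (Finset.univ : Finset (Fin m)) c).Monic := Lagrange.nodal_monic
  set P : Q[X] := Lagrange.nodal Finset.univ c + I with hP
  have hPmon : P.Monic := hNmon.add_of_left (by rw [hNdeg]; exact hIdeg)
  have hPdeg : P.degree = (m : WithBot ℕ) := by
    rw [hP, degree_add_eq_left_of_degree_lt (by rw [hNdeg]; exact hIdeg), hNdeg]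
    simp
  have hPeval : ∀ i, P.eval (c i) = (-1) ^ m * n i := by
    intro i
    rw [hP, eval_add, Lagrange.eval_nodal_at_node (Finset.mem_univ i), hI,
      Lagrange.eval_interpolate_at_node _ hinj (Finset.mem_univ i), zero_add]
  refine ⟨P, fun i => C ((-1) ^ m) * Lagrange.basis Finset.univ c i, hPmon,
    natDegree_eq_of_degree_eq_some hPdeg, fun b => ?_⟩
  set χ : Q[X] := (Algebra.lmul Q K b).charpoly with hχ
  have hχmon : χ.Monic := LinearMap.charpoly_monic _
  have hχdeg : χ.degree = (m : WithBot ℕ) := by
    rw [degree_eq_natDegree hχmon.ne_zero, hχ, LinearMap.charpoly_natDegree, hm]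
  have hlt : (P - χ).degree < (Finset.univ : Finset (Fin m)).card := by
    have h1 : (P - χ).degree < P.degree :=
      degree_sub_lt_left (by rw [hPdeg, hχdeg]) hPmon.ne_zero
        (by rw [hPmon.leadingCoeff, hχmon.leadingCoeff])
    rw [hPdeg] at h1
    simpa using h1
  have h2 := Lagrange.eq_interpolate (v := c) hinj hlt
  have h3 : aeval b P = aeval b (P - χ) := by
    rw [map_sub, hχ, Algebra.aeval_self_charpoly_lmul, sub_zero]
  rw [h3, h2, Lagrange.interpolate_apply, map_sum]
  refine Finset.sum_congr rfl fun i _ => ?_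
  rw [eval_sub, hPeval, hχ, eval_charpoly_lmul hm]
  simp only [map_mul, aeval_C, map_sub]
  ring

end Pool.Agent.Helper71.NA
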