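import Mathlib

/-!
# Divisors divisible by the class number are principal
-/

set_option autoImplicit false

open NumberField IsDedekindDomain

namespace Pool.Agent.Helper71.NA

open scoped Classical in
/-- the power of a prime with exponent the class number is generated by one element -/
theorem one_prime (Q : Type) [Field Q] [NumberField Q] (v : HeightOneSpectrum (𝓞 Q)) :
    ∃ a : Q, a ≠ 0 ∧ ∀ w : HeightOneSpectrum (𝓞 Q),
      w.valuation Q a = WithZero.exp (if w = v then -((classNumber Q : ℕ) : ℤ) else 0) := by
  classical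
  set h : ℕ := classNumber Q with hh
  let I : nonZeroDivisors (Ideal (𝓞 Q)) :=
    ⟨v.asIdeal, mem_nonZeroDivisors_of_ne_zero v.ne_bot⟩
  have h1 : ClassGroup.mk0 (I ^ h) = 1 := by
    rw [map_pow, hh, classNumber]
    exact pow_card_eq_one
  have h2 : (v.asIdeal ^ h).IsPrincipal := by
    have := (ClassGroup.mk0_eq_one_iff (I ^ h).2).1 h1
    simpa [I] using this
  obtain ⟨a, ha⟩ := h2
  have ha' : v.asIdeal ^ h = Ideal.span {a} := ha
  have ha0 : a ≠ 0 := by
    rintro rfl
    have : v.asIdeal ^ h = ⊥ := by rw [ha']; simp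
    exact v.ne_bot (pow_eq_zero_iff (by rw [hh]; exact Fintype.card_ne_zero) |>.1 this)
  refine ⟨algebraMap (𝓞 Q) Q a, ?_, ?_⟩
  · simpa using ha0
  · intro w
    rw [HeightOneSpectrum.valuation_of_algebraMap, w.intValuation_if_neg ha0, ← ha',
      Associates.mk_pow, Associates.count_pow (show Associates.mk v.asIdeal ≠ 0 from
        Associates.mk_ne_zero.2 v.ne_bot) w.associates_irreducible]
    split_ifs with hw
    · subst hw
      rw [Associates.count_self w.associates_irreducible]
      simp
    · rw [Associates.count_eq_zero_of_ne w.associates_irreducible v.associates_irreducible]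
      · simp
      · intro h'
        apply hw
        ext1
        exact associated_iff_eq.1 (Associates.mk_eq_mk_iff_associated.1 h')

/-- package C: the class group -/
theorem exists_divisor (Q : Type) [Field Q] [NumberField Q] :
    ∃ h : ℕ, 0 < h ∧ ∀ E : HeightOneSpectrum (𝓞 Q) → ℤ, {v | E v ≠ 0}.Finite →
      ∃ γ : Q, γ ≠ 0 ∧ ∀ v, v.valuation Q γ = WithZero.exp ((h : ℤ) * E v) := by
  classical
  refine ⟨classNumber Q, Fintype.card_pos, fun E hE => ?_⟩
  choose a ha0 ha using one_prime Q
  refine ⟨∏ v ∈ hE.toFinset, (a v) ^ (-(E v)), ?_, fun w => ?_⟩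
  · exact Finset.prod_ne_zero_iff.2 fun v _ => zpow_ne_zero _ (ha0 v)
  · rw [map_prod]
    have : ∀ v ∈ hE.toFinset, w.valuation Q ((a v) ^ (-(E v))) =
        if w = v then WithZero.exp ((classNumber Q : ℤ) * E v) else 1 := by
      intro v _
      rw [map_zpow₀, ha v w, ← WithZero.exp_zsmul]
      split_ifs with hw
      · congr 1
        simp
        ring
      · simp
    rw [Finset.prod_congr rfl this, Finset.prod_ite_eq]
    split_ifs with hw
    · rfl
    · have : E w = 0 := by
        by_contra h0
        exact hw (hE.mem_toFinset.2 h0)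
      simp [this]

end Pool.Agent.Helper71.NA
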